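import Mathlib

set_option autoImplicit false

namespace Pool.Agent.MadSub

variable {F E : Type*} [Field F] [AddCommGroup E] [Module F E]

/-- span of the entries of a list of vectors -/
def sp (F : Type*) {E : Type*} [Field F] [AddCommGroup E] [Module F E] (s : List E) :
    Submodule F E := Submodule.span F {x | x ∈ s}

theorem sp_nil : sp F ([] : List E) = ⊥ := by
  simp [sp]

theorem sp_cons (z : E) (s : List E) : sp F (z :: s) = Submodule.span F {z} ⊔ sp F s := by
  have : {x | x ∈ z :: s} = ({z} : Set E) ∪ {x | x ∈ s} := by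
    ext x; simp
  rw [sp, this, Submodule.span_union]; rfl

theorem sp_mono {s t : List E} (h : ∀ x ∈ s, x ∈ t) : sp F s ≤ sp F t :=
  Submodule.span_mono h

theorem sp_suffix {s t : List E} (h : s <:+ t) : sp F s ≤ sp F t :=
  sp_mono fun _ hx => h.subset hx

instance sp_fin (s : List E) : Module.Finite F (sp F s) := by
  have : {x | x ∈ s}.Finite := List.finite_toSet s
  exact FiniteDimensional.span_of_finite F this

theorem finrank_sp_le (s : List E) : Module.finrank F (sp F s) ≤ s.length := by
  classical
  have h := finrank_span_finset_le_card (R := F) s.toFinset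
  have h2 : ((s.toFinset : Finset E) : Set E) = {x | x ∈ s} := by ext; simp
  rw [Set.finrank, h2] at h
  exact h.trans (List.toFinset_card_le s)

/-- invariants of a tree of lists -/
structure Inv (F : Type*) {E : Type*} [Field F] [AddCommGroup E] [Module F E]
    (T : Set (List E)) : Prop where
  nil_mem : [] ∈ T
  tail_mem : ∀ z s, z :: s ∈ T → s ∈ T
  sep : ∀ z s t, z :: s ∈ T → t ∈ T → ¬ (z :: s) <:+ t → z ∉ sp F s ⊔ sp F t

theorem Inv.suffix_mem {T : Set (List E)} (h : Inv F T) : ∀ {s t : List E}, s <:+ t → t ∈ T → s ∈ T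
  | s, [], hst, ht => by
    have : s = [] := List.suffix_nil.mp hst
    rw [this]; exact h.nil_mem
  | s, z :: t, hst, ht => by
    rcases List.suffix_cons_iff.mp hst with h1 | h1
    · rw [h1]; exact ht
    · exact h.suffix_mem h1 (h.tail_mem z t ht)

theorem Inv.notMem_sp {T : Set (List E)} (h : Inv F T) {z : E} {s : List E} (hz : z :: s ∈ T) :
    z ∉ sp F s := by
  have h1 := h.sep z s s hz (h.tail_mem z s hz) (by
    intro hc
    have := hc.length_le
    simp at this)
  simpa using h1

/-- adding one node -/
theorem Inv.insert {T : Set (List E)} (h : Inv F T) {z : E} {s : List E} (hs : s ∈ T)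
    (hz : z ∉ sp F s) (hzt : ∀ t ∈ T, ¬ t <:+ s → z ∉ sp F s ⊔ sp F t) :
    Inv F (insert (z :: s) T) := by
  by_cases hmem : z :: s ∈ T
  · rw [Set.insert_eq_of_mem hmem]; exact h
  refine ⟨Or.inr h.nil_mem, ?_, ?_⟩
  · intro y t hyt
    rcases hyt with hyt | hyt
    · injection hyt with h1 h2
      rw [h2]; exact Or.inr hs
    · exact Or.inr (h.tail_mem y t hyt)
  · intro y u t hyu ht hnot
    rcases hyu with hyu | hyu
    · -- the new node `z :: s` against `t`
      injection hyu with h1 h2
      subst h1; subst h2
      rcases ht with ht | ht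
      · exact absurd (ht ▸ List.suffix_refl _) hnot
      · by_cases hts : t <:+ u
        · rw [sup_eq_left.mpr (sp_suffix hts)]; exact hz
        · exact hzt t ht hts
    · rcases ht with ht | ht
      · -- an old node `y :: u` against the new `t = z :: s`
        subst ht
        have hnot' : ¬ (y :: u) <:+ s := fun hc => hnot (hc.trans (List.suffix_cons z s))
        have h1 := h.sep y u s hyu hs hnot'
        have h2 : z ∉ sp F s ⊔ sp F (y :: u) := hzt _ hyu hnot'
        intro hc
        rw [sp_cons] at hc
        -- y = a + (β z + b)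
        obtain ⟨a, ha, c, hc', hac⟩ := Submodule.mem_sup.mp hc
        obtain ⟨d, hd, b, hb, hdb⟩ := Submodule.mem_sup.mp hc'
        obtain ⟨β, rfl⟩ := Submodule.mem_span_singleton.mp hd
        by_cases hβ : β = 0
        · apply h1
          rw [← hac, ← hdb, hβ, zero_smul, zero_add]
          exact Submodule.add_mem_sup ha hb
        · apply h2
          have hy : y ∈ sp F (y :: u) := Submodule.subset_span (by simp)
          have ha' : a ∈ sp F (y :: u) := sp_suffix (List.suffix_cons y u) ha
          have : z = β⁻¹ • ((y - a) - b) := by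
            rw [← hac, ← hdb]
            have : a + (β • z + b) - a - b = β • z := by abel
            rw [this, smul_smul, inv_mul_cancel₀ hβ, one_smul]
          rw [this]
          apply Submodule.smul_mem
          apply Submodule.sub_mem
          · exact Submodule.mem_sup_right (Submodule.sub_mem _ hy ha')
          · exact Submodule.mem_sup_left hb
      · exact h.sep y u t hyu ht hnot

/-- two nodes meet in the span of a common ancestor -/
theorem Inv.meet {T : Set (List E)} (h : Inv F T) : ∀ {s t : List E}, s ∈ T → t ∈ T →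
    ∃ u, u <:+ s ∧ u <:+ t ∧ sp F s ⊓ sp F t ≤ sp F u
  | [], t, hs, ht => ⟨[], List.suffix_refl _, List.nil_suffix, by simp [sp_nil]⟩
  | z :: s, t, hs, ht => by
    by_cases hst : (z :: s) <:+ t
    · exact ⟨z :: s, List.suffix_refl _, hst, inf_le_left⟩
    · obtain ⟨u, hu1, hu2, hu3⟩ := h.meet (h.tail_mem z s hs) ht
      refine ⟨u, hu1.trans (List.suffix_cons z s), hu2, ?_⟩
      intro x hx
      obtain ⟨hx1, hx2⟩ := Submodule.mem_inf.mp hx
      rw [sp_cons] at hx1
      obtain ⟨d, hd, b, hb, hdb⟩ := Submodule.mem_sup.mp hx1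
      obtain ⟨β, rfl⟩ := Submodule.mem_span_singleton.mp hd
      by_cases hβ : β = 0
      · apply hu3
        refine Submodule.mem_inf.mpr ⟨?_, hx2⟩
        rw [← hdb, hβ, zero_smul, zero_add]; exact hb
      · exfalso
        apply h.sep z s t hs ht hst
        have : z = β⁻¹ • (x - b) := by
          rw [← hdb]
          have : β • z + b - b = β • z := by abel
          rw [this, smul_smul, inv_mul_cancel₀ hβ, one_smul]
        rw [this]
        apply Submodule.smul_mem
        apply Submodule.sub_mem
        · exact Submodule.mem_sup_right hx2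
        · exact Submodule.mem_sup_left hb

theorem Inv.finrank_sp {T : Set (List E)} (h : Inv F T) : ∀ {s : List E}, s ∈ T →
    Module.finrank F (sp F s) = s.length
  | [], _ => by simp [sp_nil]
  | z :: s, hs => by
    have ih := h.finrank_sp (h.tail_mem z s hs)
    have hz := h.notMem_sp hs
    have hz0 : z ≠ 0 := fun h0 => hz (h0 ▸ Submodule.zero_mem _)
    have hdisj : Submodule.span F {z} ⊓ sp F s = ⊥ := by
      rw [eq_bot_iff]
      intro x hx
      obtain ⟨hx1, hx2⟩ := Submodule.mem_inf.mp hx
      obtain ⟨β, rfl⟩ := Submodule.mem_span_singleton.mp hx1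
      by_cases hβ : β = 0
      · simp [hβ]
      · exfalso; apply hz
        have : z = β⁻¹ • (β • z) := by rw [smul_smul, inv_mul_cancel₀ hβ, one_smul]
        rw [this]; exact Submodule.smul_mem _ _ hx2
    have h1 := Submodule.finrank_sup_add_finrank_inf_eq (Submodule.span F {z}) (sp F s)
    rw [hdisj, finrank_bot, add_zero, ih, finrank_span_singleton hz0] at h1
    rw [sp_cons, h1, List.length_cons, add_comm]

/-- a linear space is not covered by finitely many subspaces not containing it -/
theorem exists_avoid [Infinite F] (L : Submodule F E) (𝒮 : Set (Submodule F E)) (hfin : 𝒮.Finite)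
    (h : ∀ P ∈ 𝒮, ¬ L ≤ P) : ∃ z ∈ L, ∀ P ∈ 𝒮, z ∉ P := by
  classical
  have hfin' : ((fun P => Submodule.comap L.subtype P) '' 𝒮).Finite := hfin.image _
  have htop : (⊤ : Subspace F L) ∉ hfin'.toFinset := by
    intro hc
    rw [Set.Finite.mem_toFinset] at hc
    obtain ⟨P, hP, hPt⟩ := hc
    apply h P hP
    exact Submodule.comap_subtype_eq_top.mp hPt
  have hne := Subspace.biUnion_ne_univ_of_top_notMem htop
  obtain ⟨z, hz⟩ := (Set.ne_univ_iff_exists_notMem _).mp hne
  refine ⟨z, z.2, fun P hP hzP => hz ?_⟩
  rw [Set.mem_iUnion₂]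
  exact ⟨Submodule.comap L.subtype P, by
    rw [Set.Finite.mem_toFinset]; exact ⟨P, hP, rfl⟩, hzP⟩

end Pool.Agent.MadSub
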