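import Mathlib
import Pool.Agent.MadSub.Tree

set_option autoImplicit false

namespace Pool.Agent.MadSub

variable {F E : Type*} [Field F] [AddCommGroup E] [Module F E]

/-- the vector `z` may be put on top of the node `s` -/
def Good (F : Type*) {E : Type*} [Field F] [AddCommGroup E] [Module F E]
    (T : Set (List E)) (s : List E) (L : Submodule F E) (z : E) : Prop :=
  z ∈ L ∧ z ∉ sp F s ∧ ∀ t ∈ T, ¬ t <:+ s → z ∉ sp F s ⊔ sp F t

open Classical in
/-- one step of the construction -/
noncomputable def step (T : Set (List E)) (s : List E) (L : Submodule F E) : Set (List E) :=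
  if h : s ∈ T ∧ ∃ z, Good F T s L z then insert (h.2.choose :: s) T else T

theorem subset_step (T : Set (List E)) (s : List E) (L : Submodule F E) : T ⊆ step T s L := by
  unfold step
  split
  · exact Set.subset_insert _ _
  · exact subset_rfl

theorem finite_step {T : Set (List E)} (hT : T.Finite) (s : List E) (L : Submodule F E) :
    (step T s L).Finite := by
  unfold step
  split
  · exact hT.insert _
  · exact hT

theorem inv_step {T : Set (List E)} (hT : Inv F T) (s : List E) (L : Submodule F E) :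
    Inv F (step T s L) := by
  unfold step
  split
  · next h => exact hT.insert h.1 h.2.choose_spec.2.1 h.2.choose_spec.2.2
  · exact hT

theorem step_good {T : Set (List E)} {s : List E} {L : Submodule F E} (hs : s ∈ T)
    (h : ∃ z, Good F T s L z) : ∃ z, Good F T s L z ∧ z :: s ∈ step T s L := by
  unfold step
  rw [dif_pos ⟨hs, h⟩]
  exact ⟨_, h.choose_spec, Set.mem_insert _ _⟩

/-- the space asked for by a request -/
def req (F : Type*) {E : Type*} [Field F] [AddCommGroup E] [Module F E] :
    Option (List E) → Submodule F E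
  | none => ⊤
  | some l => sp F l

/-- a fixed enumeration of a countable nonempty type hitting every element infinitely often -/
theorem exists_enum (α : Type*) [Countable α] [Nonempty α] :
    ∃ e : ℕ → α, ∀ a n, ∃ m, n ≤ m ∧ e m = a := by
  obtain ⟨g, hg⟩ := exists_surjective_nat α
  refine ⟨fun m => g (Nat.unpair m).1, fun a n => ?_⟩
  obtain ⟨i, hi⟩ := hg a
  exact ⟨Nat.pair i n, Nat.right_le_pair i n, by simp [hi]⟩

/-- the stages of the construction -/
noncomputable def stage (F : Type*) {E : Type*} [Field F] [AddCommGroup E] [Module F E]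
    (e : ℕ → List E × Option (List E)) : ℕ → Set (List E)
  | 0 => {[]}
  | n + 1 => step (stage F e n) (e n).1 (req F (e n).2)

theorem stage_mono (e : ℕ → List E × Option (List E)) : Monotone (stage F e) :=
  monotone_nat_of_le_succ fun _ => subset_step _ _ _

theorem stage_finite (e : ℕ → List E × Option (List E)) (n : ℕ) : (stage F e n).Finite := by
  induction n with
  | zero => exact Set.finite_singleton _
  | succ n ih => exact finite_step ih _ _

theorem stage_inv (e : ℕ → List E × Option (List E)) (n : ℕ) : Inv F (stage F e n) := by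
  induction n with
  | zero =>
    refine ⟨rfl, ?_, ?_⟩
    · intro z s h
      simp [stage] at h
    · intro z s t h
      simp [stage] at h
  | succ n ih => exact inv_step ih _ _

/-- the tree -/
noncomputable def tree (F : Type*) {E : Type*} [Field F] [AddCommGroup E] [Module F E]
    (e : ℕ → List E × Option (List E)) : Set (List E) := ⋃ n, stage F e n

theorem tree_inv (e : ℕ → List E × Option (List E)) : Inv F (tree F e) := by
  refine ⟨Set.mem_iUnion.mpr ⟨0, rfl⟩, ?_, ?_⟩
  · intro z s h
    obtain ⟨n, hn⟩ := Set.mem_iUnion.mp h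
    exact Set.mem_iUnion.mpr ⟨n, (stage_inv e n).tail_mem z s hn⟩
  · intro z s t hs ht hst
    obtain ⟨n, hn⟩ := Set.mem_iUnion.mp hs
    obtain ⟨m, hm⟩ := Set.mem_iUnion.mp ht
    exact (stage_inv e (max n m)).sep z s t (stage_mono e (le_max_left _ _) hn)
      (stage_mono e (le_max_right _ _) hm) hst

/-- the main property of the tree -/
theorem tree_req [Infinite F] {e : ℕ → List E × Option (List E)}
    (he : ∀ a n, ∃ m, n ≤ m ∧ e m = a) {s : List E} (hs : s ∈ tree F e) (o : Option (List E))
    (hL : ¬ req F o ≤ sp F s) :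
    (∃ z ∈ req F o, z :: s ∈ tree F e) ∨
      ∃ t ∈ tree F e, ¬ t <:+ s ∧ req F o ≤ sp F s ⊔ sp F t := by
  obtain ⟨n, hn⟩ := Set.mem_iUnion.mp hs
  obtain ⟨m, hnm, hm⟩ := he (s, o) n
  by_cases hbad : ∃ t ∈ stage F e m, ¬ t <:+ s ∧ req F o ≤ sp F s ⊔ sp F t
  · obtain ⟨t, ht, h1, h2⟩ := hbad
    exact Or.inr ⟨t, Set.mem_iUnion.mpr ⟨m, ht⟩, h1, h2⟩
  · left
    push Not at hbad
    have hex : ∃ z, Good F (stage F e m) s (req F o) z := by
      obtain ⟨z, hzL, hz⟩ := exists_avoid (req F o)
        (insert (sp F s) ((fun t => sp F s ⊔ sp F t) '' {t | t ∈ stage F e m ∧ ¬ t <:+ s}))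
        (((stage_finite e m).subset (fun t ht => ht.1)).image _ |>.insert _) (by
          rintro P (rfl | ⟨t, ⟨ht1, ht2⟩, rfl⟩)
          · exact hL
          · exact hbad t ht1 ht2)
      refine ⟨z, hzL, hz _ (Set.mem_insert _ _), fun t ht hts => hz _ (Or.inr ⟨t, ⟨ht, hts⟩, rfl⟩)⟩
    obtain ⟨z, hz, hz'⟩ := step_good (stage_mono e hnm hn) hex
    refine ⟨z, hz.1, Set.mem_iUnion.mpr ⟨m + 1, ?_⟩⟩
    show z :: s ∈ step (stage F e m) (e m).1 (req F (e m).2)
    rw [hm]
    exact hz'

/-- every node has infinitely many children -/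
theorem tree_children [Infinite F] (hE : ¬ Module.Finite F E) {e : ℕ → List E × Option (List E)}
    (he : ∀ a n, ∃ m, n ≤ m ∧ e m = a) {s : List E} (hs : s ∈ tree F e) :
    {z | z :: s ∈ tree F e}.Infinite := by
  intro hfin
  obtain ⟨n, hn⟩ := Set.mem_iUnion.mp hs
  have hall : ∃ N, ∀ z ∈ {z | z :: s ∈ tree F e}, z :: s ∈ stage F e N := by
    have : ∀ z ∈ {z | z :: s ∈ tree F e}, ∃ N, z :: s ∈ stage F e N := fun z hz =>
      Set.mem_iUnion.mp hz
    choose! N hN using this
    obtain ⟨M, hM⟩ := (hfin.image N).bddAbove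
    exact ⟨M, fun z hz => stage_mono e (hM ⟨z, hz, rfl⟩) (hN z hz)⟩
  obtain ⟨N, hN⟩ := hall
  obtain ⟨m, hnm, hm⟩ := he (s, none) (max n N)
  have hsm : s ∈ stage F e m := stage_mono e ((le_max_left _ _).trans hnm) hn
  have htopfin : ∀ P : Submodule F E, Module.Finite F P → ¬ (⊤ : Submodule F E) ≤ P := by
    intro P hP hle
    apply hE
    have : P = ⊤ := top_le_iff.mp hle
    subst this
    exact Module.Finite.equiv (Submodule.topEquiv (R := F) (M := E))
  have hex : ∃ z, Good F (stage F e m) s (⊤ : Submodule F E) z := by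
    obtain ⟨z, hzL, hz⟩ := exists_avoid (⊤ : Submodule F E)
      (insert (sp F s) ((fun t => sp F s ⊔ sp F t) '' {t | t ∈ stage F e m ∧ ¬ t <:+ s}))
      (((stage_finite e m).subset (fun t ht => ht.1)).image _ |>.insert _) (by
        rintro P (rfl | ⟨t, ⟨ht1, ht2⟩, rfl⟩)
        · exact htopfin _ inferInstance
        · exact htopfin _ inferInstance)
    refine ⟨z, hzL, hz _ (Set.mem_insert _ _), fun t ht hts => hz _ (Or.inr ⟨t, ⟨ht, hts⟩, rfl⟩)⟩
  obtain ⟨z, hz, hz'⟩ := step_good hsm hex
  have hzt : z :: s ∈ tree F e := by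
    refine Set.mem_iUnion.mpr ⟨m + 1, ?_⟩
    show z :: s ∈ step (stage F e m) (e m).1 (req F (e m).2)
    rw [hm]
    exact hz'
  have hzm : z :: s ∈ stage F e m := stage_mono e ((le_max_right _ _).trans hnm) (hN z hzt)
  refine hz.2.2 _ hzm ?_ ?_
  · intro hc
    have := hc.length_le
    simp at this
  · exact Submodule.mem_sup_right (Submodule.subset_span (by simp))

end Pool.Agent.MadSub
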