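import Mathlib
import Pool.Agent.MadSub.Rec

set_option autoImplicit false
set_option linter.unusedSectionVars false

namespace Pool.Agent.MadSub

variable {F E : Type*} [Field F] [AddCommGroup E] [Module F E]

/-- the first `n` values of `f`, last value first -/
def pre (f : ℕ → E) : ℕ → List E
  | 0 => []
  | n + 1 => f n :: pre f n

/-- the space spanned by a branch -/
def hull (F : Type*) {E : Type*} [Field F] [AddCommGroup E] [Module F E] (f : ℕ → E) :
    Submodule F E := Submodule.span F (Set.range f)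

@[simp] theorem length_pre (f : ℕ → E) (n : ℕ) : (pre f n).length = n := by
  induction n with
  | zero => rfl
  | succ n ih => simp [pre, ih]

theorem pre_suffix (f : ℕ → E) {m n : ℕ} (h : m ≤ n) : pre f m <:+ pre f n := by
  induction n with
  | zero =>
    have : m = 0 := by omega
    subst this; exact List.suffix_refl _
  | succ n ih =>
    rcases Nat.lt_or_ge m (n + 1) with h1 | h1
    · exact (ih (by omega)).trans (List.suffix_cons _ _)
    · have : m = n + 1 := by omega
      subst this; exact List.suffix_refl _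

theorem suffix_eq_of_length {s t u : List E} (hs : s <:+ u) (ht : t <:+ u)
    (h : s.length = t.length) : s = t := by
  obtain ⟨a, ha⟩ := hs
  obtain ⟨b, hb⟩ := ht
  exact (List.append_inj' (ha.trans hb.symm) h).2

theorem suffix_pre {f : ℕ → E} {n : ℕ} {u : List E} (h : u <:+ pre f n) : u = pre f u.length := by
  have hle : u.length ≤ n := by simpa using h.length_le
  exact suffix_eq_of_length h (pre_suffix f hle) (by simp)

theorem sp_pre_le (f : ℕ → E) (n : ℕ) : sp F (pre f n) ≤ hull F f := by
  apply Submodule.span_mono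
  induction n with
  | zero => intro x hx; simp [pre] at hx
  | succ n ih =>
    intro x hx
    rcases List.mem_cons.mp hx with hx | hx
    · exact ⟨n, hx.symm⟩
    · exact ih hx

theorem hull_eq_iSup (f : ℕ → E) : hull F f = ⨆ n, sp F (pre f n) := by
  apply le_antisymm
  · apply Submodule.span_le.mpr
    rintro _ ⟨n, rfl⟩
    exact Submodule.mem_iSup_of_mem (n + 1) (Submodule.subset_span (by simp [pre]))
  · exact iSup_le (sp_pre_le f)

theorem pre_directed (f : ℕ → E) : Directed (· ≤ ·) fun n => sp F (pre f n) := by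
  intro a b
  exact ⟨max a b, sp_suffix (pre_suffix f (le_max_left _ _)),
    sp_suffix (pre_suffix f (le_max_right _ _))⟩

theorem mem_hull {f : ℕ → E} {x : E} : x ∈ hull F f ↔ ∃ n, x ∈ sp F (pre f n) := by
  rw [hull_eq_iSup]
  exact Submodule.mem_iSup_of_directed _ (pre_directed f)

theorem list_subset_pre {f : ℕ → E} (l : List E) (h : ∀ x ∈ l, x ∈ hull F f) :
    ∃ N, ∀ n, N ≤ n → ∀ x ∈ l, x ∈ sp F (pre f n) := by
  induction l with
  | nil => exact ⟨0, fun n _ x hx => by simp at hx⟩
  | cons a l ih =>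
    obtain ⟨N, hN⟩ := ih fun x hx => h x (List.mem_cons_of_mem _ hx)
    obtain ⟨M, hM⟩ := mem_hull.mp (h a (by simp))
    refine ⟨max N M, fun n hn x hx => ?_⟩
    rcases List.mem_cons.mp hx with hx | hx
    · rw [hx]; exact sp_suffix (pre_suffix f ((le_max_right _ _).trans hn)) hM
    · exact hN n ((le_max_left _ _).trans hn) x hx

theorem sp_le_pre {f : ℕ → E} {l : List E} (h : sp F l ≤ hull F f) :
    ∃ N, ∀ n, N ≤ n → sp F l ≤ sp F (pre f n) := by
  obtain ⟨N, hN⟩ := list_subset_pre (F := F) (f := f) l fun x hx => h (Submodule.subset_span hx)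
  exact ⟨N, fun n hn => Submodule.span_le.mpr fun x hx => hN n hn x hx⟩

/-- `f` is a branch of `T` -/
def IsBranch (T : Set (List E)) (f : ℕ → E) : Prop := ∀ n, pre f n ∈ T

theorem not_finite_of_finrank {X : Submodule F E}
    (h : ∀ n : ℕ, ∃ P : Submodule F E, P ≤ X ∧ n ≤ Module.finrank F P) :
    ¬ Module.Finite F X := by
  intro hfin
  obtain ⟨P, hP, hn⟩ := h (Module.finrank F X + 1)
  have := Submodule.finrank_mono hP
  omega

theorem IsBranch.not_finite {T : Set (List E)} (hT : Inv F T) {f : ℕ → E} (hf : IsBranch T f) :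
    ¬ Module.Finite F (hull F f) :=
  not_finite_of_finrank fun n => ⟨sp F (pre f n), sp_pre_le f n, by
    rw [hT.finrank_sp (hf n), length_pre]⟩

theorem IsBranch.inter_le {T : Set (List E)} (hT : Inv F T) {f g : ℕ → E} (hf : IsBranch T f)
    (hg : IsBranch T g) {n : ℕ} (hn : f n ≠ g n) :
    hull F f ⊓ hull F g ≤ sp F (pre f n) := by
  intro x hx
  obtain ⟨hx1, hx2⟩ := Submodule.mem_inf.mp hx
  obtain ⟨a, ha⟩ := mem_hull.mp hx1
  obtain ⟨b, hb⟩ := mem_hull.mp hx2
  obtain ⟨u, hu1, hu2, hu3⟩ := hT.meet (hf a) (hg b)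
  have hxu : x ∈ sp F u := hu3 (Submodule.mem_inf.mpr ⟨ha, hb⟩)
  have h1 := suffix_pre hu1
  have h2 := suffix_pre hu2
  by_cases hlen : u.length ≤ n
  · rw [h1] at hxu
    exact sp_suffix (pre_suffix f hlen) hxu
  · exfalso
    push Not at hlen
    have h3 : pre f (n + 1) <:+ u := by
      rw [h1]; exact pre_suffix f hlen
    have h4 : pre g (n + 1) <:+ u := by
      rw [h2]; exact pre_suffix g hlen
    have h5 := suffix_eq_of_length h3 h4 (by simp)
    simp only [pre, List.cons.injEq] at h5
    exact hn h5.1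

theorem IsBranch.inter_finite {T : Set (List E)} (hT : Inv F T) {f g : ℕ → E} (hf : IsBranch T f)
    (hg : IsBranch T g) (hfg : f ≠ g) : Module.Finite F ↥(hull F f ⊓ hull F g) := by
  obtain ⟨n, hn⟩ := Function.ne_iff.mp hfg
  exact Submodule.finiteDimensional_of_le (hf.inter_le hT hg hn)

/-- dimension count -/
theorem finrank_inf_ge (L P Q : Submodule F E) [Module.Finite F L] [Module.Finite F P]
    [Module.Finite F Q] (h : L ≤ P ⊔ Q) :
    Module.finrank F L ≤ Module.finrank F ↥(L ⊓ Q) + Module.finrank F P := by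
  have h1 := Submodule.finrank_sup_add_finrank_inf_eq L Q
  have h2 := Submodule.finrank_sup_add_finrank_inf_eq P Q
  have h3 : Module.finrank F ↥(L ⊔ Q) ≤ Module.finrank F ↥(P ⊔ Q) :=
    Submodule.finrank_mono (sup_le h le_sup_right)
  omega

theorem finrank_inf_inf_ge (L P Q R : Submodule F E) [Module.Finite F L] [Module.Finite F P]
    [Module.Finite F Q] [Module.Finite F R] (h1 : L ≤ P ⊔ Q) (h2 : L ≤ P ⊔ R) :
    Module.finrank F L ≤ Module.finrank F ↥(L ⊓ (Q ⊓ R)) + 2 * Module.finrank F P := by
  have a1 := finrank_inf_ge L P Q h1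
  have a2 := finrank_inf_ge L P R h2
  have a3 := Submodule.finrank_sup_add_finrank_inf_eq (L ⊓ Q) (L ⊓ R)
  have a4 : Module.finrank F ↥((L ⊓ Q) ⊔ (L ⊓ R)) ≤ Module.finrank F L :=
    Submodule.finrank_mono (sup_le inf_le_left inf_le_left)
  have a5 : (L ⊓ Q) ⊓ (L ⊓ R) = L ⊓ (Q ⊓ R) := by
    rw [inf_inf_inf_comm, inf_idem]
  rw [a5] at a3
  omega

theorem exists_list_le {Y : Submodule F E} (hY : ¬ Module.Finite F Y) (n : ℕ) :
    ∃ l : List E, sp F l ≤ Y ∧ n ≤ Module.finrank F (sp F l) ∧ (∀ x ∈ l, x ∈ Y) := by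
  induction n with
  | zero => exact ⟨[], by simp [sp_nil], Nat.zero_le _, by simp⟩
  | succ n ih =>
    obtain ⟨l, hl, hn, hlY⟩ := ih
    have : ∃ x ∈ Y, x ∉ sp F l := by
      by_contra hc
      push Not at hc
      exact hY (Submodule.finiteDimensional_of_le (show Y ≤ sp F l from hc))
    obtain ⟨x, hxY, hx⟩ := this
    refine ⟨x :: l, ?_, ?_, ?_⟩
    · rw [sp_cons]
      exact sup_le ((Submodule.span_singleton_le_iff_mem _ _).mpr hxY) hl
    · have hlt : sp F l < sp F (x :: l) := by
        refine lt_of_le_of_ne (sp_suffix (List.suffix_cons _ _)) ?_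
        intro hc
        apply hx
        rw [hc]
        exact Submodule.subset_span (by simp)
      have := Submodule.finrank_lt_finrank_of_lt hlt
      omega
    · intro y hy
      rcases List.mem_cons.mp hy with hy | hy
      · rw [hy]; exact hxY
      · exact hlY y hy

/-- an increasing sequence of lists in `Y` with large spans -/
theorem exists_lists {Y : Submodule F E} (hY : ¬ Module.Finite F Y) :
    ∃ l : ℕ → List E, (∀ n, sp F (l n) ≤ Y) ∧ (∀ n, n ≤ Module.finrank F (sp F (l n))) ∧
      Monotone fun n => sp F (l n) := by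
  choose l h1 h2 h3 using exists_list_le hY
  obtain ⟨L, hL0, hL⟩ : ∃ L : ℕ → List E, L 0 = l 0 ∧ ∀ n, L (n + 1) = l (n + 1) ++ L n :=
    ⟨fun n => Nat.rec (l 0) (fun k acc => l (k + 1) ++ acc) n, rfl, fun n => rfl⟩
  have hsub : ∀ n, sp F (l n) ≤ sp F (L n) := by
    intro n
    cases n with
    | zero => rw [hL0]
    | succ n => rw [hL]; exact sp_mono fun x hx => List.mem_append_left _ hx
  have hin : ∀ n, ∀ x ∈ L n, x ∈ Y := by
    intro n
    induction n with
    | zero => rw [hL0]; exact h3 0
    | succ n ih =>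
      intro x hx
      rw [hL] at hx
      rcases List.mem_append.mp hx with hx | hx
      · exact h3 _ x hx
      · exact ih x hx
  have hrank : ∀ n, n ≤ Module.finrank F (sp F (L n)) := fun n =>
    (h2 n).trans (Submodule.finrank_mono (s := sp F (l n)) (t := sp F (L n)) (hsub n))
  refine ⟨L, fun n => Submodule.span_le.mpr (hin n), hrank, monotone_nat_of_le_succ fun n => ?_⟩
  show sp F (L n) ≤ sp F (L (n + 1))
  rw [hL]; exact sp_mono fun x hx => List.mem_append_right _ hx

/-- the catching property: every infinite dimensional subspace meets a branch in an infinite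
dimensional space. -/
theorem exists_catch {T : Set (List E)} (hT : Inv F T)
    (hreq : ∀ s ∈ T, ∀ l : List E, ¬ sp F l ≤ sp F s →
      (∃ z ∈ sp F l, z :: s ∈ T) ∨ ∃ t ∈ T, ¬ t <:+ s ∧ sp F l ≤ sp F s ⊔ sp F t)
    {Y : Submodule F E} (hY : ¬ Module.Finite F Y) :
    ∃ f, IsBranch T f ∧ ¬ Module.Finite F ↥(Y ⊓ hull F f) := by
  classical
  by_cases hcase : ∀ s ∈ T, ∃ z ∈ Y, z :: s ∈ T
  · -- a branch inside `Y`
    choose! c hcY hcT using hcase
    let p : ℕ → List E := fun n => Nat.rec [] (fun _ acc => c acc :: acc) n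
    have hp : ∀ n, p (n + 1) = c (p n) :: p n := fun n => rfl
    have hpT : ∀ n, p n ∈ T := by
      intro n
      induction n with
      | zero => exact hT.nil_mem
      | succ n ih => rw [hp]; exact hcT _ ih
    have hpre : ∀ n, pre (fun n => c (p n)) n = p n := by
      intro n
      induction n with
      | zero => rfl
      | succ n ih => rw [hp, pre, ih]
    have hbr : IsBranch T fun n => c (p n) := fun n => by rw [hpre]; exact hpT n
    refine ⟨_, hbr, ?_⟩
    have hle : hull F (fun n => c (p n)) ≤ Y := by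
      apply Submodule.span_le.mpr
      rintro _ ⟨n, rfl⟩
      exact hcY _ (hpT n)
    rw [inf_eq_right.mpr hle]
    exact hbr.not_finite hT
  · push Not at hcase
    obtain ⟨s, hs, hsY⟩ := hcase
    obtain ⟨l, hlY, hln, hmono⟩ := exists_lists hY
    set d := s.length with hd
    have hds : Module.finrank F (sp F s) = d := hT.finrank_sp hs
    -- the covering nodes
    have hex : ∀ n, ∃ t ∈ T, sp F (l n) ≤ sp F s ⊔ sp F t := by
      intro n
      by_cases hle : sp F (l n) ≤ sp F s
      · exact ⟨s, hs, hle.trans le_sup_left⟩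
      · rcases hreq s hs (l n) hle with ⟨z, hz, hzT⟩ | ⟨t, ht, -, htl⟩
        · exact absurd hzT (hsY z (hlY n hz))
        · exact ⟨t, ht, htl⟩
    choose t htT htl using hex
    -- common suffixes
    have hcom : ∀ j k, j ≤ k → ∃ u, u <:+ t j ∧ u <:+ t k ∧
        sp F (t j) ⊓ sp F (t k) ≤ sp F u ∧ j ≤ u.length + 2 * d ∧
        j ≤ Module.finrank F ↥(sp F (l j) ⊓ sp F u) + 2 * d := by
      intro j k hjk
      obtain ⟨u, hu1, hu2, hu3⟩ := hT.meet (htT j) (htT k)
      have h1 := finrank_inf_inf_ge (sp F (l j)) (sp F s) (sp F (t j)) (sp F (t k)) (htl j)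
        ((hmono hjk).trans (htl k))
      have h2 : Module.finrank F ↥(sp F (l j) ⊓ (sp F (t j) ⊓ sp F (t k))) ≤
          Module.finrank F ↥(sp F (l j) ⊓ sp F u) :=
        Submodule.finrank_mono (inf_le_inf_left _ hu3)
      have h3 : Module.finrank F ↥(sp F (l j) ⊓ sp F u) ≤ Module.finrank F (sp F u) :=
        Submodule.finrank_mono inf_le_right
      have h4 : Module.finrank F (sp F u) ≤ u.length := finrank_sp_le u
      have h5 := hln j
      rw [hds] at h1
      exact ⟨u, hu1, hu2, hu3, by omega, by omega⟩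
    have hlen : ∀ j, j ≤ (t j).length + 2 * d := by
      intro j
      obtain ⟨u, hu1, -, -, h4, -⟩ := hcom j j le_rfl
      have := hu1.length_le
      omega
    -- suffix of `t k` of length `m`
    have hdrop : ∀ m k, m + 2 * d ≤ k → ∃ v, v <:+ t k ∧ v.length = m := by
      intro m k hk
      have := hlen k
      exact ⟨(t k).drop ((t k).length - m), List.drop_suffix _ _, by
        rw [List.length_drop]; omega⟩
    have hsame : ∀ m j k, m + 2 * d ≤ j → j ≤ k → ∀ v, v <:+ t j → v.length = m → v <:+ t k := by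
      intro m j k hj hjk v hv hvm
      obtain ⟨u, hu1, hu2, -, h4, -⟩ := hcom j k hjk
      have hvu : v <:+ u := List.suffix_of_suffix_length_le hv hu1 (by omega)
      exact hvu.trans hu2
    -- the limit branch
    choose! V hV1 hV2 using hdrop
    let B : ℕ → List E := fun m => V m (m + 2 * d)
    have hB1 : ∀ m, B m <:+ t (m + 2 * d) := fun m => hV1 m _ le_rfl
    have hB2 : ∀ m, (B m).length = m := fun m => hV2 m _ le_rfl
    have hB3 : ∀ m k, m + 2 * d ≤ k → B m <:+ t k := fun m k hk =>
      hsame m _ k le_rfl hk _ (hB1 m) (hB2 m)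
    have hB4 : ∀ m, ∃ z, B (m + 1) = z :: B m := by
      intro m
      have h1 : B m <:+ t (m + 1 + 2 * d) := hB3 m _ (by omega)
      have h2 : B m <:+ B (m + 1) :=
        List.suffix_of_suffix_length_le h1 (hB1 (m + 1)) (by rw [hB2, hB2]; omega)
      obtain ⟨a, ha⟩ := h2
      have hla : a.length = 1 := by
        have := congrArg List.length ha
        rw [List.length_append, hB2, hB2] at this
        omega
      obtain ⟨z, rfl⟩ := List.length_eq_one_iff.mp hla
      exact ⟨z, ha.symm⟩
    choose g hg using hB4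
    have hpre : ∀ n, pre g n = B n := by
      intro n
      induction n with
      | zero => exact (List.length_eq_zero_iff.mp (hB2 0)).symm
      | succ n ih => rw [hg, pre, ih]
    have hbr : IsBranch T g := fun n => by
      rw [hpre]; exact hT.suffix_mem (hB1 n) (htT _)
    refine ⟨g, hbr, not_finite_of_finrank fun n => ?_⟩
    -- take `j = n + 2 d`, `k` large
    set j := n + 2 * d with hj
    set k := max j ((t j).length + 2 * d) with hk
    obtain ⟨u, hu1, hu2, -, -, h5⟩ := hcom j k (le_max_left _ _)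
    have hul : u.length ≤ (t j).length := hu1.length_le
    have huB : u = B u.length := by
      refine suffix_eq_of_length hu2 (hB3 _ k ?_) (hB2 _).symm
      have := le_max_right j ((t j).length + 2 * d)
      omega
    refine ⟨sp F (l j) ⊓ sp F u, ?_, by omega⟩
    apply inf_le_inf (hlY j)
    rw [huB, ← hpre]
    exact sp_pre_le g _

end Pool.Agent.MadSub
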