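import Mathlib
import Pool.Agent.MadSub.Branch

set_option autoImplicit false
set_option linter.unusedSectionVars false

open MeasureTheory Set

namespace Pool.Agent.Results.MP_5897b0_lc.BorelMad

open Pool.Agent.MadSub

section Defs

variable {F E : Type*} [Field F] [AddCommGroup E] [Module F E]

/-- An almost disjoint family of (infinite-dimensional) subspaces. -/
structure IsAdFamily (A : Set (Submodule F E)) : Prop where
  infinite_dim : ∀ X ∈ A, ¬ FiniteDimensional F X
  almost_disjoint : ∀ X ∈ A, ∀ Y ∈ A, X ≠ Y → FiniteDimensional F ↥(X ⊓ Y)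

/-- A maximal almost disjoint family of subspaces: no almost disjoint family of subspaces
properly contains it. -/
def IsMadFamily (A : Set (Submodule F E)) : Prop :=
  IsAdFamily A ∧ ∀ B : Set (Submodule F E), IsAdFamily B → A ⊆ B → B = A

open Classical in
/-- The characteristic function of a subspace, a point of the space `2^E`. -/
noncomputable def code (X : Submodule F E) : E → Bool := fun x => decide (x ∈ X)

end Defs

section Borel

variable {F E : Type*} [Field F] [AddCommGroup E] [Module F E]

theorem code_apply (X : Submodule F E) (x : E) : code X x = true ↔ x ∈ X := by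
  simp [code]

/-- `P` is contained in the set coded by `χ` -/
def SubCode (P : Submodule F E) (χ : E → Bool) : Prop := ∀ x, x ∈ P → χ x = true

/-- the Borel description of the family of branches of `T` -/
def BSet (F : Type*) {E : Type*} [Field F] [AddCommGroup E] [Module F E] (T : Set (List E)) :
    Set (E → Bool) :=
  {χ | (χ 0 = true ∧ (∀ x y : E, χ x = true → χ y = true → χ (x + y) = true) ∧
      (∀ (a : F) (x : E), χ x = true → χ (a • x) = true)) ∧
    (∀ n : ℕ, ∃ s : List E, (s ∈ T ∧ s.length = n) ∧ SubCode (sp F s) χ) ∧
    (∀ x : E, χ x = true → ∃ s : List E, (s ∈ T ∧ x ∈ sp F s) ∧ SubCode (sp F s) χ) ∧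
    (∀ s t : List E, s ∈ T ∧ t ∈ T → SubCode (sp F s) χ → SubCode (sp F t) χ →
      s <:+ t ∨ t <:+ s)}

theorem meas_apply (x : E) : Measurable fun χ : E → Bool => χ x = true := by
  apply measurableSet_setOfPred.mp
  have h : MeasurableSet ((fun χ : E → Bool => χ x) ⁻¹' {true}) :=
    (measurable_pi_apply x) (measurableSet_singleton true)
  exact h

theorem meas_subCode [Countable E] (P : Submodule F E) :
    Measurable fun χ : E → Bool => SubCode P χ := by
  unfold SubCode
  exact Measurable.forall fun x => Measurable.imp measurable_const (meas_apply x)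

theorem polish_code (E : Type*) [Countable E] : PolishSpace (E → Bool) := by
  have h1 : TopologicalSpace.IsCompletelyMetrizableSpace (E → Bool) := inferInstance
  have h2 : TopologicalSpace.SeparableSpace (E → Bool) := inferInstance
  exact { }

theorem measurableSet_BSet [Countable F] [Countable E] (T : Set (List E)) :
    MeasurableSet (BSet F T) := by
  apply measurableSet_setOfPred.mpr
  refine Measurable.and (Measurable.and (meas_apply 0) (Measurable.and ?_ ?_))
    (Measurable.and ?_ (Measurable.and ?_ ?_))
  · exact Measurable.forall fun x => Measurable.forall fun y =>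
      (meas_apply x).imp ((meas_apply y).imp (meas_apply (x + y)))
  · exact Measurable.forall fun a => Measurable.forall fun x =>
      (meas_apply x).imp (meas_apply (a • x))
  · exact Measurable.forall fun n => Measurable.exists fun s =>
      measurable_const.and (meas_subCode _)
  · exact Measurable.forall fun x => (meas_apply x).imp (Measurable.exists fun s =>
      measurable_const.and (meas_subCode _))
  · exact Measurable.forall fun s => Measurable.forall fun t =>
      measurable_const.imp ((meas_subCode _).imp ((meas_subCode _).imp measurable_const))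

theorem subCode_code {P X : Submodule F E} : SubCode P (code X) ↔ P ≤ X := by
  constructor
  · intro h x hx
    exact (code_apply X x).mp (h x hx)
  · intro h x hx
    exact (code_apply X x).mpr (h hx)

/-- a node inside a branch is an initial segment of the branch -/
theorem suffix_of_le_hull {T : Set (List E)} (hT : Inv F T) {f : ℕ → E} (hf : IsBranch T f)
    {s : List E} (hs : s ∈ T) (hle : sp F s ≤ hull F f) : ∃ N, ∀ n, N ≤ n → s <:+ pre f n := by
  obtain ⟨N, hN⟩ := sp_le_pre hle
  refine ⟨N, fun n hn => ?_⟩
  obtain ⟨u, hu1, hu2, hu3⟩ := hT.meet hs (hf n)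
  have h1 : sp F s ≤ sp F u := by
    rw [inf_eq_left.mpr (hN n hn)] at hu3
    exact hu3
  have h2 := Submodule.finrank_mono h1
  rw [hT.finrank_sp hs, hT.finrank_sp (hT.suffix_mem hu1 hs)] at h2
  have h3 := suffix_eq_of_length (List.suffix_refl s) hu1
    (le_antisymm h2 hu1.length_le)
  rw [h3]
  exact hu2

theorem image_code_eq {T : Set (List E)} (hT : Inv F T) :
    code '' {X : Submodule F E | ∃ f, IsBranch T f ∧ X = hull F f} = BSet F T := by
  ext χ
  constructor
  · rintro ⟨X, ⟨f, hf, rfl⟩, rfl⟩
    refine ⟨⟨?_, ?_, ?_⟩, ?_, ?_, ?_⟩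
    · exact (code_apply _ _).mpr (Submodule.zero_mem _)
    · intro x y hx hy
      exact (code_apply _ _).mpr
        (Submodule.add_mem _ ((code_apply _ _).mp hx) ((code_apply _ _).mp hy))
    · intro a x hx
      exact (code_apply _ _).mpr (Submodule.smul_mem _ _ ((code_apply _ _).mp hx))
    · intro n
      exact ⟨pre f n, ⟨hf n, length_pre f n⟩, subCode_code.mpr (sp_pre_le f n)⟩
    · intro x hx
      obtain ⟨n, hn⟩ := mem_hull.mp ((code_apply _ _).mp hx)
      exact ⟨pre f n, ⟨hf n, hn⟩, subCode_code.mpr (sp_pre_le f n)⟩
    · rintro s t ⟨hs, ht⟩ hs' ht'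
      obtain ⟨N, hN⟩ := suffix_of_le_hull hT hf hs (subCode_code.mp hs')
      obtain ⟨M, hM⟩ := suffix_of_le_hull hT hf ht (subCode_code.mp ht')
      have h1 := hN (max N M) (le_max_left _ _)
      have h2 := hM (max N M) (le_max_right _ _)
      rcases le_total s.length t.length with h | h
      · exact Or.inl (List.suffix_of_suffix_length_le h1 h2 h)
      · exact Or.inr (List.suffix_of_suffix_length_le h2 h1 h)
  · rintro ⟨⟨h0, hadd, hsmul⟩, hlev, hcov, hcomp⟩
    let X : Submodule F E :=
      { carrier := {x | χ x = true}
        add_mem' := fun {x y} hx hy => hadd x y hx hy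
        zero_mem' := h0
        smul_mem' := fun a x hx => hsmul a x hx }
    have hX : ∀ x, x ∈ X ↔ χ x = true := fun x => Iff.rfl
    have hcode : code X = χ := by
      funext x
      rw [Bool.eq_iff_iff, code_apply, hX]
    choose s hs1 hs2 using hlev
    have hstep : ∀ n, ∃ z, s (n + 1) = z :: s n := by
      intro n
      have hcn := hcomp (s n) (s (n + 1)) ⟨(hs1 n).1, (hs1 (n + 1)).1⟩ (hs2 n) (hs2 (n + 1))
      have hsuf : s n <:+ s (n + 1) := by
        rcases hcn with h | h
        · exact h
        · have := h.length_le
          rw [(hs1 n).2, (hs1 (n + 1)).2] at this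
          omega
      obtain ⟨a, ha⟩ := hsuf
      have hla : a.length = 1 := by
        have := congrArg List.length ha
        rw [List.length_append, (hs1 n).2, (hs1 (n + 1)).2] at this
        omega
      obtain ⟨z, rfl⟩ := List.length_eq_one_iff.mp hla
      exact ⟨z, ha.symm⟩
    choose g hg using hstep
    have hpre : ∀ n, pre g n = s n := by
      intro n
      induction n with
      | zero => exact (List.length_eq_zero_iff.mp (hs1 0).2).symm
      | succ n ih => rw [hg, pre, ih]
    refine ⟨X, ⟨g, fun n => by rw [hpre]; exact (hs1 n).1, ?_⟩, hcode⟩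
    apply le_antisymm
    · intro x hx
      obtain ⟨t, ⟨ht1, ht2⟩, ht3⟩ := hcov x ((hX x).mp hx)
      have hcn := hcomp t (s t.length) ⟨ht1, (hs1 _).1⟩ ht3 (hs2 _)
      have hteq : t = s t.length := by
        rcases hcn with h | h
        · exact h.eq_of_length (hs1 _).2.symm
        · exact (h.eq_of_length (hs1 _).2).symm
      apply mem_hull.mpr
      refine ⟨t.length, ?_⟩
      rw [hpre, ← hteq]
      exact ht2
    · intro x hx
      obtain ⟨n, hn⟩ := mem_hull.mp hx
      rw [hpre] at hn
      exact (hX x).mpr (hs2 n x hn)

end Borel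

/-- Over every infinite countable field `F`, the space `E` of countably infinite dimension has an
infinite maximal almost disjoint family of subspaces which is Borel, hence analytic, as a subset
of `2^E`. -/
theorem result (F : Type*) (E : Type*) [Field F] [Countable F] [Infinite F] [AddCommGroup E]
    [Module F E] (b : Module.Basis ℕ F E) :
    ∃ A : Set (Submodule F E), IsMadFamily A ∧ A.Infinite ∧
      AnalyticSet (code '' A) ∧ MeasurableSet[borel (E → Bool)] (code '' A) := by
  classical
  have : Countable E := (b.repr.toEquiv.injective).countable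
  have hE : ¬ Module.Finite F E := by
    intro h
    exact not_finite_iff_infinite.mpr inferInstance
      ((Module.Finite.finite_basis (R := F) (M := E) b))
  obtain ⟨e, he⟩ := exists_enum (List E × Option (List E))
  set T := tree F e with hTdef
  have hT : Inv F T := tree_inv e
  have hcatch : ∀ Y : Submodule F E, ¬ Module.Finite F Y →
      ∃ f, IsBranch T f ∧ ¬ Module.Finite F ↥(Y ⊓ hull F f) := fun Y hY =>
    exists_catch hT (fun s hs l hl => tree_req he hs (some l) hl) hY
  refine ⟨{X | ∃ f, IsBranch T f ∧ X = hull F f}, ⟨⟨?_, ?_⟩, ?_⟩, ?_, ?_⟩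
  · rintro X ⟨f, hf, rfl⟩
    exact hf.not_finite hT
  · rintro X ⟨f, hf, rfl⟩ Y ⟨g, hg, rfl⟩ hne
    exact hf.inter_finite hT hg fun h => hne (by rw [h])
  · intro B hB hAB
    apply le_antisymm _ hAB
    intro Y hY
    obtain ⟨f, hf, hYf⟩ := hcatch Y (hB.infinite_dim Y hY)
    by_contra hc
    apply hYf
    refine hB.almost_disjoint Y hY (hull F f) (hAB ⟨f, hf, rfl⟩) ?_
    intro h
    exact hc ⟨f, hf, h⟩
  · -- infinitely many branches
    have hchild := fun (s : List E) (hs : s ∈ T) => tree_children hE he hs
    have hext : ∀ z, z :: [] ∈ T → ∃ f, IsBranch T f ∧ f 0 = z := by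
      intro z hz
      have hne : ∀ s ∈ T, ∃ y, y :: s ∈ T := fun s hs => (hchild s hs).nonempty
      choose! c hc using hne
      obtain ⟨p, hp0, hp⟩ : ∃ p : ℕ → List E, p 0 = [z] ∧ ∀ n, p (n + 1) = c (p n) :: p n :=
        ⟨fun n => Nat.rec [z] (fun _ acc => c acc :: acc) n, rfl, fun n => rfl⟩
      have hpT : ∀ n, p n ∈ T := by
        intro n
        induction n with
        | zero => rw [hp0]; exact hz
        | succ n ih => rw [hp]; exact hc _ ih
      let f : ℕ → E := fun n => Nat.casesOn n z fun m => c (p m)
      have hpre : ∀ n, pre f (n + 1) = p n := by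
        intro n
        induction n with
        | zero => rw [hp0]; rfl
        | succ n ih => rw [hp, pre, ih]
      refine ⟨f, fun n => ?_, rfl⟩
      cases n with
      | zero => exact hT.nil_mem
      | succ n => rw [hpre]; exact hpT n
    choose! φ hφ1 hφ2 using hext
    have hinj : Set.InjOn (fun z => hull F (φ z)) {z | z :: [] ∈ T} := by
      intro y hy z hz hyz
      by_contra hne
      have hfg : φ y ≠ φ z := by
        intro h
        apply hne
        rw [← hφ2 y hy, ← hφ2 z hz, h]
      have h1 := (hφ1 y hy).inter_finite hT (hφ1 z hz) hfg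
      have h2 : hull F (φ y) = hull F (φ z) := hyz
      rw [h2, inf_idem] at h1
      exact (hφ1 z hz).not_finite hT h1
    have hinf := (hchild [] hT.nil_mem).image hinj
    refine hinf.mono ?_
    rintro _ ⟨z, hz, rfl⟩
    exact ⟨φ z, hφ1 z hz, rfl⟩
  · rw [image_code_eq hT]
    have hmeas := measurableSet_BSet (F := F) T
    have hpol := polish_code E
    refine ⟨hmeas.analyticSet, ?_⟩
    have hb : (MeasurableSpace.pi : MeasurableSpace (E → Bool)) = borel (E → Bool) :=
      BorelSpace.measurable_eq
    rw [← hb]
    exact hmeas

end Pool.Agent.Results.MP_5897b0_lc.BorelMad
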